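import Pool.Agent.helper74.FD.SpecF

/-!
# fd:BM2, a bump function with a fast decaying transform (helper63)
-/

set_option autoImplicit false

open MeasureTheory Filter Set
open scoped ContDiff Topology ComplexConjugate FourierTransform SchwartzMap

namespace Pool.Agent.FD

theorem BM2_ft (f : ℝ → ℂ) (w : ℝ) : ft f w = 𝓕 f w := by
  rw [Real.fourier_real_eq_integral_exp_smul]
  unfold ft
  refine integral_congr_ae (Filter.Eventually.of_forall fun x => ?_)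
  simp only [smul_eq_mul]
  rw [mul_comm]
  congr 3
  norm_num

theorem BM2_fti (f : ℝ → ℂ) (w : ℝ) : fti f w = 𝓕⁻ f w := by
  have h : fti f w = ft f (-w) := by
    unfold fti ft
    refine integral_congr_ae (Filter.Eventually.of_forall fun x => ?_)
    simp only
    congr 3
    push_cast
    ring
  rw [h, BM2_ft, Real.fourierInv_eq_fourier_neg]

/-- a smooth bump, as a Schwartz function -/
theorem BM2_bump (r : ℝ) (hr : 0 < r) : ∃ (f : ℝ → ℝ), Continuous f ∧ HasCompactSupport f ∧ (∀ x, 0 ≤ f x) ∧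
    (∀ x, f (-x) = f x) ∧ f 0 ≠ 0 ∧ (∀ x, r ≤ |x| → f x = 0) ∧ ∀ c : ℝ, ∃ S : 𝓢(ℝ, ℂ), ∀ x, S x = ((c * f x : ℝ) : ℂ) := by
  obtain ⟨b, hb⟩ : ∃ b : ContDiffBump (0 : ℝ), b.rOut = r :=
    ⟨⟨r / 2, r, by positivity, by linarith⟩, rfl⟩
  refine ⟨b, b.continuous, b.hasCompactSupport, fun x => b.nonneg, fun x => b.neg x, ?_, ?_, fun c => ?_⟩
  · have h3 : b 0 = 1 := b.one_of_mem_closedBall (Metric.mem_closedBall_self b.rIn_pos.le)
    rw [h3]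
    exact one_ne_zero
  · intro x hx
    refine b.zero_of_le_dist ?_
    rw [hb, dist_zero_right, Real.norm_eq_abs]
    exact hx
  · have h1 : ContDiff ℝ ∞ (fun x : ℝ => ((c * b x : ℝ) : ℂ)) :=
      Complex.ofRealCLM.contDiff.comp (contDiff_const.mul b.contDiff)
    have h2 : HasCompactSupport (fun x : ℝ => ((c * b x : ℝ) : ℂ)) :=
      b.hasCompactSupport.comp_left (g := fun y : ℝ => ((c * y : ℝ) : ℂ)) (by simp)
    exact ⟨h2.toSchwartzMap h1, fun x => rfl⟩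

/-- decay of a Schwartz function -/
theorem BM2_decay (S : 𝓢(ℝ, ℂ)) (k : ℕ) : ∃ C : ℝ, 0 < C ∧ ∀ x, |x| ^ k * ‖S x‖ ≤ C := by
  obtain ⟨C, hC0, hC⟩ := S.decay k 0
  refine ⟨C, hC0, fun x => ?_⟩
  have h := hC x
  rw [norm_iteratedFDeriv_zero, Real.norm_eq_abs] at h
  exact h

/-- **Row BM2** -/
theorem BM2_proof : BM2_stmt := by
  intro σ hσ
  obtain ⟨f, hfc, hfs, hf0, -, hfne, hfz, hfS⟩ := BM2_bump σ hσ
  have hI : 0 < ∫ x, f x ^ 2 := by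
    refine Continuous.integral_pos_of_hasCompactSupport_nonneg_nonzero (x := 0) (hfc.pow 2) ?_ (fun x => sq_nonneg _) (pow_ne_zero 2 hfne)
    exact hfs.comp_left (g := fun y : ℝ => y ^ 2) (by simp)
  obtain ⟨c, hc⟩ : ∃ c : ℝ, c = (Real.sqrt (∫ x, f x ^ 2))⁻¹ := ⟨_, rfl⟩
  obtain ⟨S, hS⟩ := hfS c
  obtain ⟨C0, hC0, h0⟩ := BM2_decay (𝓕 S) 0
  obtain ⟨C3, hC3, h3⟩ := BM2_decay (𝓕 S) 3
  refine ⟨fun x => c * f x, 4 * (C0 + C3), continuous_const.mul hfc, fun x hx => by simp only [hfz x hx, mul_zero], ?_, fun ξ => ?_⟩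
  · have e1 : ∀ x, (c * f x) ^ 2 = c ^ 2 * f x ^ 2 := fun x => mul_pow _ _ _
    simp only [e1]
    rw [integral_const_mul, hc, inv_pow, Real.sq_sqrt hI.le, inv_mul_cancel₀ hI.ne']
  · have e1 : ft (fun x => ((c * f x : ℝ) : ℂ)) ξ = (𝓕 S) ξ := by
      have e2 : (fun x => ((c * f x : ℝ) : ℂ)) = (S : ℝ → ℂ) := by
        funext x
        exact (hS x).symm
      rw [e2, BM2_ft, ← SchwartzMap.fourier_coe]
    rw [e1]
    have a0 := h0 ξ
    have a3 := h3 ξ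
    rw [pow_zero, one_mul] at a0
    have hx := abs_nonneg ξ
    have hn := norm_nonneg ((𝓕 S) ξ)
    rw [le_div_iff₀ (by positivity)]
    have e3 : (1 + |ξ|) ^ 3 ≤ 4 * (1 + |ξ| ^ 3) := by
      nlinarith [mul_nonneg (sq_nonneg (|ξ| - 1)) (by linarith : (0 : ℝ) ≤ |ξ| + 1)]
    calc ‖(𝓕 S) ξ‖ * (1 + |ξ|) ^ 3 ≤ ‖(𝓕 S) ξ‖ * (4 * (1 + |ξ| ^ 3)) := mul_le_mul_of_nonneg_left e3 hn
      _ = 4 * (‖(𝓕 S) ξ‖ + |ξ| ^ 3 * ‖(𝓕 S) ξ‖) := by ring
      _ ≤ 4 * (C0 + C3) := by linarith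

end Pool.Agent.FD
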