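import Pool.Agent.helper74.FD.SpecF
import Pool.Agent.helper63.FD.BM2

/-!
# fd:BM1, a band limited bump (helper63)
-/

set_option autoImplicit false

open MeasureTheory Filter Set
open scoped ContDiff Topology ComplexConjugate FourierTransform SchwartzMap

namespace Pool.Agent.FD

/-- **Row BM1** -/
theorem BM1_proof : BM1_stmt := by
  obtain ⟨f, hfc, hfs, hf0, hfe, hfne, hfz, hfS⟩ := BM2_bump (1 / 16) (by norm_num)
  have hfi : Integrable f := hfc.integrable_of_hasCompactSupport hfs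
  have hI : 0 < ∫ x, f x := hfc.integral_pos_of_hasCompactSupport_nonneg_nonzero hfs hf0 hfne
  obtain ⟨c, hc⟩ : ∃ c : ℝ, c = (∫ x, f x)⁻¹ := ⟨_, rfl⟩
  have hc0 : 0 < c := by rw [hc]; exact inv_pos.mpr hI
  have hcI : ∫ x, c * f x = 1 := by
    rw [integral_const_mul, hc, inv_mul_cancel₀ hI.ne']
  obtain ⟨S, hS⟩ := hfS c
  obtain ⟨C2, hC2, h2⟩ := BM2_decay (𝓕⁻ S) 2
  have hSi : Integrable (fun ξ => ((c * f ξ : ℝ) : ℂ)) := (hfi.const_mul c).ofReal
  have hSx : ∀ x, (𝓕⁻ S) x = fti (fun ξ => ((c * f ξ : ℝ) : ℂ)) x := by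
    intro x
    have e2 : (fun x => ((c * f x : ℝ) : ℂ)) = (S : ℝ → ℂ) := by
      funext x
      exact (hS x).symm
    rw [e2, BM2_fti, ← SchwartzMap.fourierInv_coe]
  -- the transform is real
  have hreal : ∀ x, fti (fun ξ => ((c * f ξ : ℝ) : ℂ)) x = ((∫ ξ, c * f ξ * Real.cos (2 * Real.pi * x * ξ) : ℝ) : ℂ) := by
    intro x
    have e1 : Integrable (fun ξ : ℝ => ((c * f ξ : ℝ) : ℂ) * Complex.exp (((2 * Real.pi * x * ξ : ℝ) : ℂ) * Complex.I)) := by
      refine hSi.mul_bdd (c := 1) ?_ (Filter.Eventually.of_forall fun ξ => ?_)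
      · exact (Complex.continuous_exp.comp (by fun_prop)).aestronglyMeasurable
      · rw [Complex.norm_exp_ofReal_mul_I]
    have e2 : fti (fun ξ => ((c * f ξ : ℝ) : ℂ)) x = conj (fti (fun ξ => ((c * f ξ : ℝ) : ℂ)) x) := by
      unfold fti
      rw [← integral_conj, ← integral_neg_eq_self]
      refine integral_congr_ae (Filter.Eventually.of_forall fun ξ => ?_)
      simp only [map_mul, Complex.conj_ofReal]
      rw [hfe, ← Complex.exp_conj, map_mul, Complex.conj_ofReal, Complex.conj_I]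
      congr 2
      push_cast
      ring
    have e3 : (fti (fun ξ => ((c * f ξ : ℝ) : ℂ)) x).im = 0 := by
      have := congrArg Complex.im e2
      rw [Complex.conj_im] at this
      linarith
    refine Complex.ext ?_ ?_
    · rw [Complex.ofReal_re]
      unfold fti
      rw [← RCLike.re_eq_complex_re, ← integral_re e1]
      refine integral_congr_ae (Filter.Eventually.of_forall fun ξ => ?_)
      simp only [RCLike.re_eq_complex_re]
      rw [Complex.re_ofReal_mul, Complex.exp_ofReal_mul_I_re]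
    · rw [e3, Complex.ofReal_im]
  have hint : ∀ x, Integrable (fun ξ => c * f ξ * Real.cos (2 * Real.pi * x * ξ)) := by
    intro x
    refine (hfi.const_mul c).mul_bdd (c := 1) (by fun_prop) (Filter.Eventually.of_forall fun ξ => ?_)
    rw [Real.norm_eq_abs]
    exact Real.abs_cos_le_one _
  refine ⟨fun ξ => ((c * f ξ : ℝ) : ℂ), fun x => ((𝓕⁻ S) x).re, 1 + C2, ?_, ?_, ?_, ?_, ?_, ?_, ?_, ?_, ?_⟩
  · fun_prop
  · intro ξ hξ
    simp only [hfz ξ hξ.le, mul_zero, Complex.ofReal_zero]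
  · have e1 : ∀ ξ, ‖((c * f ξ : ℝ) : ℂ)‖ ^ 2 = (c * f ξ) ^ 2 := fun ξ => by
      rw [Complex.norm_real, Real.norm_eq_abs, sq_abs]
    simp only [e1]
    refine Continuous.integral_pos_of_hasCompactSupport_nonneg_nonzero (x := 0) (by fun_prop) ?_ (fun x => sq_nonneg _) (pow_ne_zero 2 (mul_ne_zero hc0.ne' hfne))
    exact hfs.comp_left (g := fun y : ℝ => (c * y) ^ 2) (by simp)
  · intro x
    simp only []
    rw [hSx, hreal, Complex.ofReal_re]
  · exact Complex.continuous_re.comp (𝓕⁻ S).continuous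
  · exact (𝓕⁻ S).integrable.re
  · intro x
    simp only []
    rw [hSx, hreal, Complex.ofReal_re, ← Real.norm_eq_abs]
    refine (norm_integral_le_integral_norm _).trans ?_
    rw [← hcI]
    refine integral_mono (hint x).norm (hfi.const_mul c) fun ξ => ?_
    simp only [norm_mul, Real.norm_eq_abs]
    rw [abs_of_pos hc0, abs_of_nonneg (hf0 ξ)]
    exact mul_le_of_le_one_right (mul_nonneg hc0.le (hf0 ξ)) (Real.abs_cos_le_one _)
  · intro x hx
    simp only []
    rw [hSx, hreal, Complex.ofReal_re]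
    have e1 : (9 / 10 : ℝ) = ∫ ξ, 9 / 10 * (c * f ξ) := by rw [integral_const_mul, hcI, mul_one]
    rw [e1]
    refine integral_mono ((hfi.const_mul c).const_mul _) (hint x) fun ξ => ?_
    simp only []
    rw [mul_comm (9 / 10 : ℝ)]
    by_cases hξ : 1 / 16 ≤ |ξ|
    · rw [hfz ξ hξ]
      simp
    · rw [not_le] at hξ
      refine mul_le_mul_of_nonneg_left ?_ (mul_nonneg hc0.le (hf0 ξ))
      have e2 := Real.one_sub_sq_div_two_le_cos (x := 2 * Real.pi * x * ξ)
      have e3 : (2 * Real.pi * x * ξ) ^ 2 ≤ 1 / 5 := by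
        have p1 : Real.pi < 3.15 := Real.pi_lt_d2
        have p0 : 0 < Real.pi := Real.pi_pos
        have e4 : |2 * Real.pi * x * ξ| ≤ 2 * Real.pi * 1 * (1 / 16) := by
          rw [abs_mul, abs_mul, abs_of_pos (by positivity : (0 : ℝ) < 2 * Real.pi)]
          exact mul_le_mul (mul_le_mul_of_nonneg_left hx (by positivity)) hξ.le (abs_nonneg _) (by positivity)
        have e5 : |2 * Real.pi * x * ξ| ^ 2 ≤ (2 * Real.pi * 1 * (1 / 16)) ^ 2 := pow_le_pow_left₀ (abs_nonneg _) e4 2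
        rw [sq_abs] at e5
        nlinarith
      linarith
  · intro x
    simp only []
    have a2 := h2 x
    have a0 : |((𝓕⁻ S) x).re| ≤ 1 := by
      rw [hSx, hreal, Complex.ofReal_re, ← Real.norm_eq_abs]
      refine (norm_integral_le_integral_norm _).trans ?_
      rw [← hcI]
      refine integral_mono (hint x).norm (hfi.const_mul c) fun ξ => ?_
      simp only [norm_mul, Real.norm_eq_abs]
      rw [abs_of_pos hc0, abs_of_nonneg (hf0 ξ)]
      exact mul_le_of_le_one_right (mul_nonneg hc0.le (hf0 ξ)) (Real.abs_cos_le_one _)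
    have a1 : |((𝓕⁻ S) x).re| ≤ ‖(𝓕⁻ S) x‖ := Complex.abs_re_le_norm _
    rw [le_div_iff₀ (by positivity)]
    rw [sq_abs] at a2
    have a3 : |((𝓕⁻ S) x).re| * x ^ 2 ≤ x ^ 2 * ‖(𝓕⁻ S) x‖ := by
      rw [mul_comm]
      exact mul_le_mul_of_nonneg_left a1 (sq_nonneg x)
    linarith

end Pool.Agent.FD
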