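import Pool.Agent.helper74.FD.SpecG

/-!
# fd:DPM, the sets `Dpp` are measurable and invariant (helper63)
-/

set_option autoImplicit false

open scoped MatrixGroups ContDiff Topology UpperHalfPlane ComplexConjugate
open UpperHalfPlane MeasureTheory Filter Set

namespace Pool.Agent.FD

open Pool.Agent.RS Pool.Agent.MS

/-- **Row DPM** -/
theorem DPM_proof (hGLC : RS.GLC_stmt) : DPM_stmt := by
  intro Γ θ n' hθ
  obtain ⟨-, -, -, haM, -⟩ := hGLC
  refine ⟨?_, ?_⟩
  · refine IsClosed.measurableSet ?_
    have h : Dpp θ n' = ⋂ t ∈ Icc (1 : ℝ) (n' - 1), {g | θ (g * aM (-t)) ≤ 9 / 16} := by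
      ext g
      simp only [Dpp, Set.mem_setOf_eq, Set.mem_iInter]
    rw [h]
    refine isClosed_biInter fun t _ => ?_
    refine isClosed_le ?_ continuous_const
    exact hθ.inv.1.comp (continuous_id.mul continuous_const)
  · intro γ g
    simp only [Dpp, Set.mem_setOf_eq]
    refine forall₂_congr fun t _ => ?_
    rw [mul_assoc, hθ.inv.2]

end Pool.Agent.FD
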